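import Mathlib
import Pool.Agent.K1H76.RG.Fin
import Pool.Agent.K1H76.RG.Unif

/-!
# For almost all primes `p`, fewer than half of the Bernoulli indices of order `d` are irregular,
for every even order `d ≥ 4` (up to a bound tending to infinity with `p`)

Let `d ≥ 4` be even, `p ≡ 1 (mod d)` a prime with `(p - 1) / d` odd.  The *indices of order `d`* are
the even `n`, `2 ≤ n ≤ p - 3`, for which the character `ω^(n-1)` has order `d`, i.e.
`gcd(n - 1, p - 1) = (p - 1) / d`; there are `φ(d)` of them if `p ≠ d + 1`.  An index `n` is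
irregular if `p` divides the numerator of `B_n`; `p` is regular iff there is no irregular index.

Method.  If at least `φ(d)/2` of the indices of order `d` are irregular, then `p^(φ(d)/2)` divides
the norm of the half sum `∑_{a < p/2} χ(a)`, `χ` of order `d`, so that the product over the
characters of order `d` of `|2 - χ(2)| |L(1, χ)|` is `π^φ(d)` times a natural number.
* `L(1, χ)` is close to an Euler product of length `(log x)^A` for all but `x^(3/4)` of the primes
  `p ≤ x` (large sieve).
* The primes between a large constant `Q` and `(log x)^A` contribute little: this is a mean square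
  over `p` with the weights `p^(-s)`, `s = 1 + 1 / log x`, and the only information needed is the
  bound `(s - 1) ζ_E(s) ≪ (1 + log |disc E|)^d` for the pure fields `E = ℚ((q₁ q₂^(d-1))^(1/d))`,
  uniform in `E` (Landau; proved from the functional equation of the theta functions of `E`).
* The values `χ(q)`, `q ≤ Q`, `q ∤ d`, are independent and uniformly distributed among the `d`-th
  roots of unity (Kummer theory and the prime ideal theorem), and a Littlewood-Offord argument shows
  that the finite Euler product is rarely near a given value.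
-/

set_option autoImplicit false

namespace Pool.Agent.Results.MP_a3a416_nt.AllOrders

open Filter

/-- `n` is an index of order `d` modulo `p`: `n` is even, `2 ≤ n ≤ p - 3`, and
`gcd(n - 1, p - 1) = (p - 1) / d`. -/
def IndexOfOrder (d p n : ℕ) : Prop :=
  Even n ∧ 2 ≤ n ∧ n + 3 ≤ p ∧ Nat.gcd (n - 1) (p - 1) = (p - 1) / d

/-- At least half of `φ(d)` indices of order `d` modulo `p` are irregular, where `d` is the order of
an odd power of the Teichmueller character of `p`, i.e. `d ∣ p - 1` and `(p - 1) / d` is odd. -/
def HalfIrregular (d p : ℕ) : Prop :=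
  d ∣ p - 1 ∧ Odd ((p - 1) / d) ∧
    (d.totient : ℝ) / 2 ≤ Nat.card {n : ℕ | IndexOfOrder d p n ∧ (p : ℤ) ∣ (bernoulli n).num}

open Classical in
/-- (1) There are exactly `φ(d)` indices of order `d` (`d ≥ 4` even, `d ∣ p - 1`, `(p - 1) / d` odd,
`p ≠ d + 1`).
(2) For every even `d ≥ 4` the primes `p` for which at least half of the `φ(d)` indices of order `d`
are irregular have logarithmic density zero.
(3) There is a nondecreasing function `D`, tending to infinity, such that the primes `p` for which
this happens for some even `d` with `4 ≤ d ≤ D(p)` have logarithmic density zero. -/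
theorem result :
    (∀ d p : ℕ, 4 ≤ d → Even d → p.Prime → d ∣ p - 1 → Odd ((p - 1) / d) → p ≠ d + 1 →
      Nat.card {n : ℕ | IndexOfOrder d p n} = d.totient) ∧
    (∀ d : ℕ, 4 ≤ d → Even d → ∀ ε : ℝ, 0 < ε → ∀ᶠ x : ℕ in atTop,
      ∑ p ∈ (Finset.range (x + 1)).filter (fun p => p.Prime ∧ HalfIrregular d p), 1 / (p : ℝ) ≤
        ε * Real.log (Real.log x)) ∧
    (∃ D : ℕ → ℕ, Monotone D ∧ Tendsto D atTop atTop ∧ ∀ ε : ℝ, 0 < ε → ∀ᶠ x : ℕ in atTop,
      ∑ p ∈ (Finset.range (x + 1)).filter (fun p => p.Prime ∧
        ∃ d : ℕ, Even d ∧ 4 ≤ d ∧ d ≤ D p ∧ HalfIrregular d p), 1 / (p : ℝ) ≤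
        ε * Real.log (Real.log x)) := by
  have key : ∀ d p : ℕ, HalfIrregular d p ↔ Pool.Agent.K1H76.RG.Bd' d p := by
    intro d p
    have h1 : Nat.card {n : ℕ | IndexOfOrder d p n ∧ (p : ℤ) ∣ (bernoulli n).num} =
        (Pool.Agent.K1H76.RG.irr d p).card := by
      rw [← Pool.Agent.K1H76.RG.card_irr]
      congr 1
      simp only [IndexOfOrder, and_assoc]
    unfold HalfIrregular Pool.Agent.K1H76.RG.Bd'
    rw [h1]
    refine and_congr_right fun _ => and_congr_right fun _ => ?_
    rw [div_le_iff₀ (by norm_num : (0 : ℝ) < 2), mul_comm]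
    exact_mod_cast Iff.rfl
  refine ⟨fun d p hd he hp hdp hodd hne =>
    Pool.Agent.K1H76.RG.card_all hd he hp.two_le hdp hodd hne, fun d hd he ε hε => ?_, ?_⟩
  · filter_upwards [Pool.Agent.K1H76.RG.final d (by omega) he ε hε] with x hx
    refine le_trans (le_of_eq ?_) hx
    refine Finset.sum_congr ?_ fun _ _ => rfl
    ext p
    simp only [Pool.Agent.K1H76.RG.Pr, Finset.mem_filter, key, and_assoc]
  · obtain ⟨D, hD1, hD2, hD3⟩ := Pool.Agent.K1H76.RG.unif
      fun d hd he => Pool.Agent.K1H76.RG.final d (by omega) he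
    refine ⟨D, hD1, hD2, fun ε hε => ?_⟩
    filter_upwards [hD3 ε hε] with x hx
    refine le_trans (le_of_eq ?_) hx
    refine Finset.sum_congr ?_ fun _ _ => rfl
    ext p
    simp only [Pool.Agent.K1H76.RG.Pr, Finset.mem_filter, key, and_assoc]

end Pool.Agent.Results.MP_a3a416_nt.AllOrders
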