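import Mathlib
import Pool.Agent.K1H92.RB.Four
import Pool.Agent.K1H92.RB.Six
import Pool.Agent.K1H92.RB.Fin

/-!
# The sum of the reciprocals of the primes with an irregular index of order four or six converges

Let `p ≡ 5 (mod 8)`; the even indices `k` such that `k - 1` is an odd multiple of `(p - 1) / 4` are
`(p + 3) / 4` and `(3 p + 1) / 4`. Let `p ≡ 7 (mod 12)`; the even indices `k` such that `k - 1` is
`(p - 1) / 6` times a number prime to `6` are `(p + 5) / 6` and `(5 p + 1) / 6`. The results
`QuarticIndices` and `SexticIndices` of this folder say that the primes `p ≤ x` which divide the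
numerator of one of these Bernoulli numbers are `o(x / log x)`. Here it is proved that there are
`O(x / (log x)^{11/10})` of them, so that the sum of their reciprocals converges.

Outline.  As there, `|L(1, χ)|²` for the quartic (sextic) character lies, for an exceptional prime,
in a discrete set, and the primes are replaced by the elements of `ℤ[i]` (`ℤ[ω]`) of norm `≤ x`
without small split prime factors, weighted by Selberg's sieve. New is that everything is uniform in
the set of small primes, which now grows with `x`: the values of `χ` at all primes `q ≤ c log x`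
are independent, with total error `x^{-c}`.
* The sum over the `n ≤ x^{1/40}` with a prime factor `> y = c log x` has mean square
  `O(y^{-1+ε})` (`Tail.lean`, `tausq_rate`); the part of the `y`-smooth `n` agrees with the Euler
  product up to `x^{-c}` (Rankin's trick, `smooth_rate`).
* The factors `|1 - χ(q)/q|^{-2}` of a prime `q ≤ k` change by a factor `≥ 1 + g/k` when `χ(q)` is
  multiplied by a certain root of unity (`gap_rate`), so by Sperner's theorem and Chebyshev's bound
  for the number of the primes up to `k` the Euler product is within a factor `1 + g/k` of a given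
  number with probability `O(k^{-1/2+ε})` (`many_primes`, `binom_rate`, `core`).
* With `k = y^{0.44}` and `O(k^{1/4})` possible values of `|L(1, χ)|²` (larger values of `|L(1, χ)|²`
  are rare by the mean square) all errors are `O(y^{-1/10})` (`Core.lean`, `Count.lean`, `Gen.lean`).
-/

set_option autoImplicit false

namespace Pool.Agent.Results.MP_a3a416_nt.BrunSmallOrders

open Filter

/-- the primes `p ≡ 5 (mod 8)` which divide the numerator of `B_{(p+3)/4}` or of `B_{(3p+1)/4}`, and
the primes `p ≡ 7 (mod 12)` which divide the numerator of `B_{(p+5)/6}` or of `B_{(5p+1)/6}` -/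
def Exceptional : Set ℕ :=
  {p | p.Prime ∧
    ((p % 8 = 5 ∧
        ((p : ℤ) ∣ (bernoulli ((p + 3) / 4)).num ∨ (p : ℤ) ∣ (bernoulli ((3 * p + 1) / 4)).num)) ∨
      (p % 12 = 7 ∧
        ((p : ℤ) ∣ (bernoulli ((p + 5) / 6)).num ∨ (p : ℤ) ∣ (bernoulli ((5 * p + 1) / 6)).num)))}

/-- The number of the exceptional primes up to `x` is `O(x / (log x)^{11/10})`, and the sum of the
reciprocals of the exceptional primes converges. -/
theorem result :
    (∃ C : ℝ, ∀ x : ℕ, 2 ≤ x →
      (Nat.card {p : ℕ | p ≤ x ∧ p ∈ Exceptional} : ℝ) ≤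
        C * (x / (Real.log x) ^ (11 / 10 : ℝ))) ∧
    Summable (fun p : Exceptional => (1 : ℝ) / (p : ℕ)) := by
  obtain ⟨C4, hC4, h4⟩ := Pool.Agent.K1H92.RB.four_rate
  obtain ⟨C6, hC6, h6⟩ := Pool.Agent.K1H92.RB.six_rate
  refine Pool.Agent.K1H92.RB.finish Exceptional (C4 + C6) (by positivity) ?_
  filter_upwards [h4, h6] with x h4 h6
  have hfin : ∀ S : Set ℕ, {p : ℕ | p ≤ x ∧ p ∈ S}.Finite := fun S =>
    (Set.finite_le_nat x).subset fun p hp => hp.1
  set S4 : Set ℕ := {p : ℕ | p ≤ x ∧ p ∈ Pool.Agent.R361.QF.P4 ∧ Pool.Agent.R361.QF.B4 p} with hS4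
  set S6 : Set ℕ := {p : ℕ | p ≤ x ∧ p ∈ Pool.Agent.R361.SX.P6 ∧ Pool.Agent.R361.SX.B6 p} with hS6
  have hsub : {p : ℕ | p ≤ x ∧ p ∈ Exceptional} ⊆ S4 ∪ S6 := by
    rintro p ⟨h1, h2, h3 | h3⟩
    · exact Or.inl ⟨h1, ⟨h2, h3.1⟩, h3.2⟩
    · exact Or.inr ⟨h1, ⟨h2, h3.1⟩, h3.2⟩
  have hf4 : S4.Finite := (Set.finite_le_nat x).subset fun p hp => hp.1
  have hf6 : S6.Finite := (Set.finite_le_nat x).subset fun p hp => hp.1
  rw [Nat.card_coe_set_eq] at h4 h6 ⊢
  have h7 : ({p : ℕ | p ≤ x ∧ p ∈ Exceptional} : Set ℕ).ncard ≤ S4.ncard + S6.ncard :=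
    (Set.ncard_le_ncard hsub (hf4.union hf6)).trans (Set.ncard_union_le S4 S6)
  have h8 : ((({p : ℕ | p ≤ x ∧ p ∈ Exceptional} : Set ℕ).ncard : ℕ) : ℝ) ≤
      (S4.ncard : ℝ) + (S6.ncard : ℝ) := by exact_mod_cast h7
  rw [add_mul]
  linarith

end Pool.Agent.Results.MP_a3a416_nt.BrunSmallOrders
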