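import Mathlib
import Pool.Agent.K1H22.RG.Orb

/-!
# Regular indices in every Galois orbit of odd characters

Let `p ≥ 5` be prime and let `ω` be the Teichmüller character. The even `n`, `2 ≤ n ≤ p - 1`,
correspond to the odd characters `ω^(n-1)` modulo `p`, and the `n` with `gcd (n - 1, p - 1) = t`
(for `t ∣ p - 1` odd) to one Galois orbit, the odd characters of exact order `m = (p - 1) / t`; there
are `f = φ(m)` of them. Let `r` be the number of those `n` in the orbit whose `B_n` has a numerator
not divisible by `p`. Then `r ≥ 1`, `r ≥ (f / 2) (1 - 2 log log p / log p)`,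
`r ≥ (f / 2) log (4 f) / log p`, and `r ≥ f / 2` if `(log p)^f < p`.

Proof. Let `χ` be a character modulo `p` of order `m` with values in `ℤ[ζ_m]` and
`S = ∑_{a < p/2} χ(a)`. For each `n` in the orbit there is a homomorphism `ℤ[ζ_m] → 𝔽_p` carrying
`χ(a)` to `a^(n-1)`; it carries `S` to `∑_{a < p/2} a^(n-1)`, which is a unit times `B_n`. The kernels
are different primes of degree one (`Hom.lean`), so `p^(f - r)` divides the norm of `S`
(`Main.lean`), which is not zero since `L(1, χ) ≠ 0`. The norm of `S` is at most `(√p log p)^f` by the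
inequality of Pólya and Vinogradov, and at most `((p - 1)² / (4 f))^(f/2)` by the identity
`∑_{ψ odd} |S(ψ)|² = (p - 1)² / 4` and the inequality between the means (`Pars.lean`).
-/

set_option autoImplicit false

namespace Pool.Agent.Results.MP_a3a416_nt.GaloisOrbits

/-- The indices `n`, `2 ≤ n ≤ p - 1`, with `gcd (n - 1, p - 1) = t`; those `n` for which the power
`ω^(n-1)` of the Teichmüller character has exact order `(p - 1) / t`. -/
def orbit (p t : ℕ) : Finset ℕ :=
  (Finset.Icc 2 (p - 1)).filter (fun n => Nat.gcd (n - 1) (p - 1) = t)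

/-- The number of the `n` in `orbit p t` such that `p` does not divide the numerator of `B_n`. -/
noncomputable def regularCount (p t : ℕ) : ℕ :=
  ((orbit p t).filter (fun n => ¬ ((p : ℤ) ∣ (bernoulli n).num))).card

/-- Let `p ≥ 5` be prime, `t` an odd divisor of `p - 1`, `f` the number of the indices `n`,
`2 ≤ n ≤ p - 1`, with `gcd (n - 1, p - 1) = t`, and `r` the number of those of them for which `p` does
not divide the numerator of `B_n`. Then `f = φ((p - 1) / t)`, `r > 0`,
`(f / 2) (log p - 2 log log p) ≤ r log p`, `(f / 2) log (4 f) ≤ r log p`, and if `(log p)^f < p`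
then `f ≤ 2 r`. -/
theorem result (p t : ℕ) (hp : p.Prime) (hp5 : 5 ≤ p) (ht : t ∣ p - 1) (hodd : Odd t) :
    (orbit p t).card = Nat.totient ((p - 1) / t) ∧
    0 < regularCount p t ∧
    ((orbit p t).card : ℝ) / 2 * (Real.log p - 2 * Real.log (Real.log p)) ≤
      (regularCount p t : ℝ) * Real.log p ∧
    ((orbit p t).card : ℝ) / 2 * Real.log (4 * ((orbit p t).card : ℝ)) ≤
      (regularCount p t : ℝ) * Real.log p ∧
    ((Real.log p) ^ (orbit p t).card < (p : ℝ) → (orbit p t).card ≤ 2 * regularCount p t) := by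
  haveI : Fact p.Prime := ⟨hp⟩
  have hodd' : t % 2 = 1 := Nat.odd_iff.mp hodd
  have hpo : p % 2 = 1 := by
    rcases hp.eq_two_or_odd with h1 | h1
    · omega
    · exact h1
  have hcard : (orbit p t).card = Nat.totient ((p - 1) / t) :=
    Pool.Agent.K1H22.RG.orb_card hp5 hpo ht hodd'
  obtain ⟨h1, h2, h3⟩ := Pool.Agent.K1H22.RG.final hp5 ht hodd' (regularCount p t) rfl
  have hfpos : 0 < (orbit p t).card := by
    rw [hcard, Nat.totient_pos]
    exact Nat.div_pos (Nat.le_of_dvd (by omega) ht) (Nat.pos_of_dvd_of_pos ht (by omega))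
  refine ⟨hcard, ?_, h1, h2, h3⟩
  by_contra hcon
  have h0 : regularCount p t = 0 := by omega
  have h4 : ((orbit p t).card : ℝ) / 2 * Real.log (4 * ((orbit p t).card : ℝ)) ≤
      (regularCount p t : ℝ) * Real.log p := h2
  rw [h0, Nat.cast_zero, zero_mul] at h4
  have h5 : (1 : ℝ) ≤ (orbit p t).card := by exact_mod_cast hfpos
  have h6 : 0 < Real.log (4 * ((orbit p t).card : ℝ)) := Real.log_pos (by linarith)
  have h7 : 0 < ((orbit p t).card : ℝ) / 2 * Real.log (4 * ((orbit p t).card : ℝ)) := by
    positivity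
  linarith

end Pool.Agent.Results.MP_a3a416_nt.GaloisOrbits
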