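import Mathlib
import Pool.Agent.K1H44.RG.Count

/-!
# Sums of two regular indices, one of them small, for every prime

Call `i`, `1 ≤ i ≤ (p - 3) / 2`, a regular index of the prime `p` if `p` does not divide the
numerator of `B_{2i}`.  Let `p` be any prime and `2 ≤ N ≤ (p - 3) / 2`.  We bound from below the number of
the `i`, `I < i ≤ M`, for which `i` and `N - i` are both regular indices: if `2 M < N` and
`N + 12 I + 37 + k (24 I + 156 k + 216) < 8 M` then there are more than `k` of them.  So (`I = k = 0`)
every `N` is a sum of two regular indices of which one is at most `(N + 37) / 8 + 1`, there are no long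
gaps in the set of these `i` (`k = 0`), and for every `ε > 0` there are at least `c(ε) N ^ (1 / 2)`
such sums in which one index is at most `(1 / 8 + ε) N`, if `N` is large.

Outline.  Let `w_i = c_i c_{N-i}`, `c_i` the coefficient of `coth (t / 2) / 2` at `t ^ (2i - 1)`, modulo `p`,
and `F = ∑ w_i X ^ (2 i)`.
1. The addition formula of `coth` gives
   `(X + 1) F = ∑ w_i (X + 1) ^ (2 i) (X + X ^ (2 (N - i)))`,
   and the formula for `tanh (a - b) (a coth b - b tanh a)` gives
   `∑ w_i (4 ^ i - 1) ((X - 1) ^ (2 i) (X - (4 ^ (N - i) - 1) X ^ (2 (N - i))) - (X - 1) X ^ (2 i)) = 0`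
   (`Tanh.lean`).  With the symmetries `X ↦ -X` and `X ↦ 1 / X` of `F` one finds, for each of the six
   points `τ = 1, -1, 2, -2, 1 / 2, -1 / 2`, scalars `α_i`, `β_i` with
   `(X - τ) F = ∑ w_i (X - τ) ^ (2 i) (α_i X + β_i X ^ (2 (N - i)))` (`Cusps.lean`).
2. Let `K` be the set of the `i`, `I < i ≤ M`, with `w_i ≠ 0`, and let `f` be the part of `F` with the
   exponents between `2 M` and `2 (N - M)`. Then `f` vanishes to the order `2 M + 2` at zero and at
   infinity, and `(X - τ) f` does so at each of the six points up to a sum of monomials with exponents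
   in few short intervals and a combination of the functions `(X - τ) ^ (2 i) X` and
   `(X - τ) ^ (2 i) X ^ (2 (N - i))`, `i ∈ K`. After a multiplication by the product `Q` of the `X - τ`
   an operator of Euler type kills these monomials at all six points (`Main.lean`, `Count.lean`).
3. If `K` is empty then the image of `Q f`, if it is not zero, has too many zeros for its degree. In
   general we take the Wronskian, with respect to `X d/dX`, of the image of `Q f` and of a basis of the
   space spanned by the images of the functions in 2 (there are at most `12 |K|` of them): it is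
   nonzero, and it has too many zeros for its degree if `|K|` is small (`Wron.lean`, `Count.lean`).
4. If `f = 0` then the theorem on the middle part of the sums
   (`Pool/Agent/Results/MP_a3a416_nt/BalancedRegularSums.lean`) applies.
-/

set_option autoImplicit false

namespace Pool.Agent.Results.MP_a3a416_nt.UnbalancedRegularSums

open Finset Pool.Agent.H332R2 Pool.Agent.TH350.SumReg

/-- Let `p` be a prime, `2 ≤ N ≤ (p - 3) / 2`, `2 M < N` and
`N + 12 I + 37 + k (24 I + 156 k + 216) < 8 M`. Then there are more than `k` numbers `i`, `I < i ≤ M`,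
such that `p` divides neither the numerator of `B_{2i}` nor the numerator of `B_{2(N-i)}`. -/
theorem result (p : ℕ) (hp : p.Prime) (N : ℕ) (hN2 : 2 ≤ N) (hN : 2 * N + 3 ≤ p) (I M k : ℕ)
    (hM : 2 * M < N) (h : N + 12 * I + 37 + k * (24 * I + 156 * k + 216) < 8 * M) :
    k < ((Finset.Ioc I M).filter (fun i => ¬ ((p : ℤ) ∣ (bernoulli (2 * i)).num) ∧
      ¬ ((p : ℤ) ∣ (bernoulli (2 * (N - i))).num))).card := by
  have : Fact p.Prime := ⟨hp⟩
  have hccb : ∀ m, 2 * m + 3 ≤ p → (cc p (2 * m) = 0 ↔ (p : ℤ) ∣ (bernoulli (2 * m)).num) :=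
    fun m hm => cc_eq_zero_iff (by omega) (by omega)
  have hfil : (Finset.Ioc I M).filter (fun i => ww p N i ≠ 0) =
      (Finset.Ioc I M).filter (fun i => ¬ ((p : ℤ) ∣ (bernoulli (2 * i)).num) ∧
      ¬ ((p : ℤ) ∣ (bernoulli (2 * (N - i))).num)) := by
    refine Finset.filter_congr fun i hi => ?_
    rw [mem_Ioc] at hi
    unfold ww
    rw [Ne, mul_eq_zero, hccb i (by omega), hccb (N - i) (by omega), not_or]
  have h1 := Pool.Agent.K1H44.RG.count (p := p) N I M hN hN2 hM
  rw [hfil] at h1
  by_contra hcon
  rw [not_lt] at hcon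
  have h2 := Nat.mul_le_mul hcon (show 24 * I + 156 * ((Finset.Ioc I M).filter
    (fun i => ¬ ((p : ℤ) ∣ (bernoulli (2 * i)).num) ∧
      ¬ ((p : ℤ) ∣ (bernoulli (2 * (N - i))).num))).card + 216 ≤ 24 * I + 156 * k + 216 by omega)
  omega

end Pool.Agent.Results.MP_a3a416_nt.UnbalancedRegularSums
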